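import Mathlib

/-!
# `φ_±(ℤ/2 × ℤ/24, [0,5]) = 2`, although `12 > 3 · 5 - 4`
-/

set_option autoImplicit false

namespace Pool.Agent.Results.MP_26ecb3_co.Refuted

open Finset

/-- `A` is `s`-spanning: every element is `∑ a ∈ A, λ_a a` with integers `λ_a`,
`∑ a ∈ A, |λ_a| ≤ s`. -/
def Spanning {G : Type*} [AddCommGroup G] (A : Finset G) (s : ℕ) : Prop :=
  ∀ g : G, ∃ lam : G → ℤ, ∑ a ∈ A, |lam a| ≤ s ∧ ∑ a ∈ A, lam a • a = g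

/-- `φ_±(G, [0,s])`: the least size of an `s`-spanning set of `G`. -/
noncomputable def phi (G : Type*) [AddCommGroup G] (s : ℕ) : ℕ :=
  sInf {m | ∃ A : Finset G, A.card = m ∧ Spanning A s}

/-- The set `L` of the problem. -/
def L : Set (ℕ × ℕ) :=
  {p | (p.1 = 2 ∧ p.2 ∈ ({1, 2} : Set ℕ)) ∨ (p.1 = 3 ∧ p.2 ∈ ({1, 2, 3, 4} : Set ℕ)) ∨
    (p.1 = 4 ∧ p.2 ∈ ({1, 2, 3, 4, 5, 6, 8} : Set ℕ)) ∨ (5 ≤ p.1 ∧ 1 ≤ p.2 ∧ p.2 ≤ 3 * p.1 - 4)}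

theorem two : ∀ g : ZMod 2 × ZMod 24, ∃ x ∈ Finset.Icc (-5 : ℤ) 5, ∃ y ∈ Finset.Icc (-5 : ℤ) 5,
    |x| + |y| ≤ 5 ∧ x • ((0, 3) : ZMod 2 × ZMod 24) + y • ((1, 2) : ZMod 2 × ZMod 24) = g := by
  decide +kernel

theorem one : ∀ a : ZMod 2 × ZMod 24, ∃ g : ZMod 2 × ZMod 24, ∀ x ∈ Finset.Icc (-5 : ℤ) 5,
    x • a ≠ g := by
  decide +kernel

theorem phi_eq : phi (ZMod 2 × ZMod (2 * 12)) 5 = 2 := by
  have hmem : 2 ∈ {m | ∃ A : Finset (ZMod 2 × ZMod (2 * 12)), A.card = m ∧ Spanning A 5} := by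
    refine ⟨{(0, 3), (1, 2)}, by decide, ?_⟩
    intro g
    obtain ⟨x, -, y, -, hxy, hg⟩ := two g
    refine ⟨fun a => if a = (0, 3) then x else y, ?_, ?_⟩
    · rw [Finset.sum_pair (by decide)]
      simpa using hxy
    · rw [Finset.sum_pair (by decide)]
      simpa using hg
  refine le_antisymm (Nat.sInf_le hmem) ?_
  refine le_csInf ⟨2, hmem⟩ ?_
  rintro m ⟨A, hA, hspan⟩
  by_contra hlt
  have h01 : A.card = 0 ∨ A.card = 1 := by omega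
  rcases h01 with h | h
  · rw [Finset.card_eq_zero] at h
    subst h
    obtain ⟨lam, -, h2⟩ := hspan (0, 1)
    rw [Finset.sum_empty] at h2
    exact absurd h2 (by decide)
  · rw [Finset.card_eq_one] at h
    obtain ⟨a, rfl⟩ := h
    obtain ⟨g, hg⟩ := one a
    obtain ⟨lam, h1, h2⟩ := hspan g
    rw [Finset.sum_singleton] at h1 h2
    have h3 := abs_le.1 h1
    exact hg (lam a) (Finset.mem_Icc.2 ⟨by simpa using h3.1, by simpa using h3.2⟩) h2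

/-- **Q1 is false:** `φ_±(ℤ/2 × ℤ/24, [0,5]) = 2`, while `(5, 12) ∉ L`. In particular it is not
true that `φ_±(ℤ/2 × ℤ/(2k), [0,s]) = 2` only if `(s, k) ∈ L`. -/
theorem result : (phi (ZMod 2 × ZMod (2 * 12)) 5 = 2 ∧ (5, 12) ∉ L) ∧
    ¬ ∀ s k : ℕ, 0 < s → 0 < k → phi (ZMod 2 × ZMod (2 * k)) s = 2 → (s, k) ∈ L := by
  have hL : (5, 12) ∉ L := by
    intro h
    simp [L] at h
  exact ⟨⟨phi_eq, hL⟩, fun h => hL (h 5 12 (by norm_num) (by norm_num) phi_eq)⟩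

end Pool.Agent.Results.MP_26ecb3_co.Refuted
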